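import Pool.Agent.Results.MP_c4a975_al.EveryCharacteristic

/-!
# A right alternative nil algebra of index three with non-solvable heart

The right alternative algebra of the starting file is an algebra over the given field, satisfies
`(x * x) * x = 0`, and its minimal ideal is contained in every nonzero ideal and contains all
products.
-/

set_option autoImplicit false

namespace Pool.Agent.Y136.NilHeart

open Pool.Agent.Results.MP_c4a975_al.EveryCharacteristic

section Abstract

variable (K : Type) {P O : Type} [Field K] [AddCommGroup P] [Module K P] [AddCommGroup O]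
  [Module K O] (m : P →+ O →+ O) (n : O →+ O →+ P)

noncomputable instance : Module K (A K m n) := inferInstanceAs (Module K (V K P O))

lemma mk_smul (c : K) (α : Module.End K O) (β : K) (z d e : O) (p1 p2 : P) (q1 q2 : O) :
    c • mk K m n α β z d e p1 p2 q1 q2 =
      mk K m n (c • α) (c • β) (c • z) (c • d) (c • e) (c • p1) (c • p2) (c • q1) (c • q2) := rfl

lemma smul_mul (hm : ∀ (c : K) p z, m (c • p) z = c • m p z ∧ m p (c • z) = c • m p z)
    (hn : ∀ (c : K) q z, n (c • q) z = c • n q z ∧ n q (c • z) = c • n q z)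
    (c : K) (x y : A K m n) : (c • x) * y = c • (x * y) ∧ x * (c • y) = c • (x * y) := by
  obtain ⟨α, β, z, d, e, p1, p2, q1, q2, rfl⟩ := mk_surj K m n x
  obtain ⟨α', β', z', d', e', p1', p2', q1', q2', rfl⟩ := mk_surj K m n y
  rw [mk_smul, mk_smul, mk_mul, mk_mul, mk_mul, mk_smul]
  constructor
  · apply mk_congr
    · rw [smul_zero]
    · rw [smul_zero]
    · simp only [smul_add, smul_sub, (hm _ _ _).1, (hm _ _ _).2, LinearMap.smul_apply, map_smul,
        smul_smul, smul_eq_mul, mul_comm c]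
    · rfl
    · rw [smul_smul, smul_eq_mul]
    · rw [(hn _ _ _).1]
    · rw [(hn _ _ _).1, smul_neg]
    · rw [(hm _ _ _).1]
    · rw [(hm _ _ _).1]
  · apply mk_congr
    · rw [smul_zero]
    · rw [smul_zero]
    · simp only [smul_add, smul_sub, (hm _ _ _).1, (hm _ _ _).2, LinearMap.smul_apply, map_smul,
        smul_smul, smul_eq_mul, mul_comm c]
    · rw [map_smul]
    · rw [smul_comm]
    · rw [(hn _ _ _).2]
    · rw [(hn _ _ _).2, smul_neg]
    · rw [(hm _ _ _).2]
    · rw [(hm _ _ _).2]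

variable {m n}

/-- The algebra is nil of index three. -/
lemma cube_zero (H : Ax m n) (x : A K m n) : (x * x) * x = 0 := by
  obtain ⟨α, β, z, d, e, p1, p2, q1, q2, rfl⟩ := mk_surj K m n x
  rw [mk_mul, mk_mul, mk_zero]
  have h1 : m (n q1 z) q2 = -m (n q2 z) q1 := H.mnq q1 q2 z
  apply mk_congr
  · rfl
  · rfl
  · simp only [zero_smul, LinearMap.zero_apply, map_neg, AddMonoidHom.neg_apply, map_smul]
    rw [h1, H.mm p2 p1 z]
    abel
  · simp
  · simp
  · simp [H.nm]
  · simp [H.nm]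
  · simp [H.mn]
  · simp [H.mn]

/-- No nonzero element annihilates the algebra from both sides. -/
lemma eq_zero_of_ann (one : P) (hone : ∀ z, m one z = z) (hP : ∀ p, (∀ w, m p w = 0) → p = 0)
    (w0 : O) (hw0 : w0 ≠ 0) (u : A K m n) (hl : ∀ y, u * y = 0) (hr : ∀ y, y * u = 0) : u = 0 := by
  obtain ⟨α, β, z, d, e, p1, p2, q1, q2, rfl⟩ := mk_surj K m n u
  have hT : ∀ w : O, α w = 0 ∧ β • w = 0 ∧ m p1 w = 0 ∧ m p2 w = 0 := by
    intro w
    have h := hl (eT K m n w)
    unfold eT at h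
    rw [mk_mul, mk_zero] at h
    have h' := mk_inj K m n h
    exact ⟨h'.2.2.2.1, h'.2.2.2.2.1, h'.2.2.2.2.2.2.2.1, h'.2.2.2.2.2.2.2.2⟩
  have hα : α = 0 := LinearMap.ext fun w => (hT w).1
  have hβ : β = 0 := (smul_eq_zero.1 (hT w0).2.1).resolve_right hw0
  have hp1 : p1 = 0 := hP _ fun w => (hT w).2.2.1
  have hp2 : p2 = 0 := hP _ fun w => (hT w).2.2.2
  subst hα hβ hp1 hp2
  have hd : d = 0 := by
    have h := hl (gB K m n)
    unfold gB at h
    rw [mk_mul, mk_zero] at h
    have h' := (mk_inj K m n h).2.2.1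
    simpa using h'
  have he : e = 0 := by
    have h := hl (gA K m n 1)
    unfold gA at h
    rw [mk_mul, mk_zero] at h
    have h' := (mk_inj K m n h).2.2.1
    simpa using h'
  have hq2 : q2 = 0 := by
    have h := hl (eP1 K m n one)
    unfold eP1 at h
    rw [mk_mul, mk_zero] at h
    have h' := (mk_inj K m n h).2.2.1
    simpa [hone] using h'
  have hq1 : q1 = 0 := by
    have h := hl (eP2 K m n one)
    unfold eP2 at h
    rw [mk_mul, mk_zero] at h
    have h' := (mk_inj K m n h).2.2.1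
    simpa [hone] using h'
  have hz : z = 0 := by
    have h := hr (gA K m n 1)
    unfold gA at h
    rw [mk_mul, mk_zero] at h
    have h' := (mk_inj K m n h).2.2.2.1
    simpa using h'
  subst hd he hq1 hq2 hz
  rfl

/-- The ideal is contained in every nonzero ideal. -/
lemma heart (one : P) (hone : ∀ z, m one z = z) (hP : ∀ p, (∀ w, m p w = 0) → p = 0)
    (w0 : O) (hw0 : w0 ≠ 0) (J : AddSubgroup (A K m n)) (hJ : IsIdeal J) (hJ0 : J ≠ ⊥) :
    I K m n ≤ J := by
  have hJI : IsIdeal (J ⊓ I K m n) := fun r a ha =>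
    ⟨⟨(hJ r a ha.1).1, (I_ideal K m n r a ha.2).1⟩, ⟨(hJ r a ha.1).2, (I_ideal K m n r a ha.2).2⟩⟩
  rcases minimal K m n one hone hP (J ⊓ I K m n) hJI inf_le_right with h | h
  · exfalso
    obtain ⟨⟨u, huJ⟩, hu0⟩ := AddSubgroup.ne_bot_iff_exists_ne_zero.mp hJ0
    apply hu0
    apply Subtype.ext
    refine eq_zero_of_ann K one hone hP w0 hw0 u (fun y => ?_) fun y => ?_
    · have : u * y ∈ J ⊓ I K m n := ⟨(hJ y u huJ).2, mul_mem_I K m n u y⟩
      rwa [h, AddSubgroup.mem_bot] at this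
    · have : y * u ∈ J ⊓ I K m n := ⟨(hJ y u huJ).1, mul_mem_I K m n y u⟩
      rwa [h, AddSubgroup.mem_bot] at this
  · rw [← h]; exact inf_le_left

lemma I_smul (hn : ∀ (c : K) q z, n (c • q) z = c • n q z ∧ n q (c • z) = c • n q z)
    (c : K) (x : A K m n) (hx : x ∈ I K m n) : c • x ∈ I K m n := by
  obtain ⟨z, d, e, p1, p2, q1, q2, rfl, h1, h2⟩ := hx
  have hPP : ∀ p ∈ PP n, c • p ∈ PP n := by
    intro p hp
    induction hp using AddSubgroup.closure_induction with
    | mem p h =>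
      obtain ⟨q, z, rfl⟩ := h
      rw [← (hn c q z).1]; exact n_mem n _ _
    | zero => rw [smul_zero]; exact zero_mem _
    | add a b _ _ ha hb => rw [smul_add]; exact add_mem ha hb
    | neg a _ ha => rw [smul_neg]; exact neg_mem ha
  refine ⟨c • z, c • d, c • e, c • p1, c • p2, c • q1, c • q2, ?_, hPP _ h1, hPP _ h2⟩
  rw [mk_smul, smul_zero, smul_zero]

end Abstract

/-- The main theorem. -/
theorem main_nil (K : Type) [Field K] :
    ∃ (R : Type) (_ : NonUnitalNonAssocRing R) (_ : Module K R),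
      (∀ (c : K) (x y : R), (c • x) * y = c • (x * y) ∧ x * (c • y) = c • (x * y)) ∧
      RightAlternative R ∧
      (∀ x y z : R, ((x * y) * z) * y = x * ((y * z) * y)) ∧
      (∀ x : R, (x * x) * x = 0 ∧ x * (x * x) = 0) ∧
      ∃ I : AddSubgroup R, IsMinimalIdeal I ∧ (∀ J : AddSubgroup R, IsIdeal J → J ≠ ⊥ → I ≤ J) ∧
        (∀ x y : R, x * y ∈ I) ∧ (∀ (c : K), ∀ x ∈ I, c • x ∈ I) ∧
        ¬ IsSimpleAsRing I ∧ ¬ IsSolvableIdeal I ∧ ¬ IsRightNilpotent I := by
  have hy0 : yv K 0 ≠ 0 := by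
    have h := wds_ne K 0 0
    simpa [wds] using h
  have hm : ∀ (c : K) (p : Ev (sg K)) (z : Od (sg K)),
      mm (sg K) (c • p) z = c • mm (sg K) p z ∧ mm (sg K) p (c • z) = c • mm (sg K) p z := by
    intro c p z
    constructor
    · apply Subtype.ext
      rw [mm_coe, Submodule.coe_smul, Submodule.coe_smul, mm_coe, smul_mul_assoc]
    · apply Subtype.ext
      rw [mm_coe, Submodule.coe_smul, Submodule.coe_smul, mm_coe, mul_smul_comm]
  have hn : ∀ (c : K) (q z : Od (sg K)),
      nn (sg K) (sg_sg K) (c • q) z = c • nn (sg K) (sg_sg K) q z ∧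
      nn (sg K) (sg_sg K) q (c • z) = c • nn (sg K) (sg_sg K) q z := by
    intro c q z
    constructor
    · apply Subtype.ext
      rw [nn_coe, Submodule.coe_smul, Submodule.coe_smul, nn_coe, smul_mul_assoc]
    · apply Subtype.ext
      rw [nn_coe, Submodule.coe_smul, Submodule.coe_smul, nn_coe, mul_smul_comm]
  have hone : ∀ z, mm (sg K) (⟨1, fun y => by simp, map_one _⟩ : Ev (sg K)) z = z := by
    intro z
    apply Subtype.ext
    rw [mm_coe, one_mul]
  refine ⟨A K (mm (sg K)) (nn (sg K) (sg_sg K)), inferInstance, inferInstance,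
    smul_mul K _ _ hm hn, right_alt K (ax (sg K) _), moufang K (ax (sg K) _), fun x => ?_,
    I K _ _, ⟨I_ideal K _ _, I_ne_bot K _ _ (yv K 0) hy0, fun J hJ hJI => ?_⟩,
    fun J hJ hJ0 => heart K _ hone (faithful K) (yv K 0) hy0 J hJ hJ0, mul_mem_I K _ _,
    fun c x hx => I_smul K hn c x hx,
    not_simple K _ _ (yv K 0) hy0, not_solvable K _ _ (yv K) (wds_ne K), ?_⟩
  · have h1 := cube_zero K (ax (sg K) (sg_sg K)) x
    exact ⟨h1, by rw [← right_alt K (ax (sg K) (sg_sg K)) x x, h1]⟩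
  · exact minimal K _ _ _ hone (faithful K) J hJ hJI
  · rintro ⟨k, hk⟩
    refine not_solvable K _ _ (yv K) (wds_ne K) ⟨k, ?_⟩
    rw [eq_bot_iff, ← hk]
    exact (derived_le_rightPow _ (I_ideal K _ _) k).1

end Pool.Agent.Y136.NilHeart
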